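import Pool.Agent.W325.KZ.Defs

/-! KZ-END: contradiction with almost sure convergence, and the frozen statement. -/

set_option autoImplicit false

open Finset MeasureTheory ProbabilityTheory Filter Topology

namespace Pool.Agent.W570.KZ

open Pool.Agent.W325.KZ

theorem NR_le (a : ℕ → ℝ) (n : ℕ) : NR a n ≤ n := by
  unfold NR
  refine (Polynomial.card_roots' _).trans ?_
  refine Polynomial.natDegree_sum_le_of_forall_le _ _ ?_
  intro i hi
  refine (Polynomial.natDegree_C_mul_X_pow_le _ _).trans ?_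
  exact (mem_range.1 hi).le

open Classical in
theorem NR_aem (hA : S_AES) (hM : S_MEAS) (n : ℕ) (hn : 1 ≤ n) :
    AEMeasurable (fun a => (NR a n : ℝ)) ga := by
  refine ⟨fun a => ∑ k ∈ range n, if Zr (pol a n) Set.univ (k + 1) then (1 : ℝ) else 0, ?_, ?_⟩
  · refine Finset.measurable_sum _ fun k _ => ?_
    exact Measurable.ite ((hM n).2.1 (k + 1)) measurable_const measurable_const
  · filter_upwards [hA n hn] with a ha
    have h1 : ∀ k, (if Zr (pol a n) Set.univ (k + 1) then (1 : ℝ) else 0) =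
        if k < NR a n then 1 else 0 := by
      intro k
      congr 1
      exact propext ((ha (k + 1)).symm)
    simp only [h1]
    rw [Finset.sum_ite, Finset.sum_const_zero, add_zero, Finset.sum_const, nsmul_eq_mul, mul_one]
    have : (Finset.filter (fun k => k < NR a n) (range n)) = range (NR a n) := by
      ext k
      simp only [mem_filter, mem_range]
      have := NR_le a n
      omega
    rw [this, card_range]

theorem HP_of (hA : S_AES) (hM : S_MEAS)
    (h : ∀ᵐ a ∂ga, Tendsto (fun n : ℕ => (NR a (n + 1) : ℝ) / Real.log n) atTop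
      (𝓝 (2 / Real.pi))) : HP := by
  intro η hη ε hε
  have hms : ∀ n : ℕ, AEStronglyMeasurable (fun a => (NR a (n + 1) : ℝ) / Real.log n) ga :=
    fun n => ((NR_aem hA hM (n + 1) (by omega)).div_const _).aestronglyMeasurable
  have ht := tendstoInMeasure_of_tendsto_ae (g := fun _ => 2 / Real.pi) hms h
  rw [tendstoInMeasure_iff_norm] at ht
  have h1 := ht (η / 2) (by positivity)
  have h2 : ∀ᶠ n : ℕ in atTop, ga {x | η / 2 ≤ ‖(NR x (n + 1) : ℝ) / Real.log n - 2 / Real.pi‖} ≤
      ENNReal.ofReal ε :=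
    h1.eventually_le_const (by simpa using hε)
  have h3 : ∀ᶠ n : ℕ in atTop, 2 / η + 1 ≤ Real.log n :=
    (Real.tendsto_log_atTop.comp tendsto_natCast_atTop_atTop).eventually_ge_atTop _
  obtain ⟨n₀, hn₀⟩ := eventually_atTop.1 (h2.and (h3.and (eventually_ge_atTop 1)))
  refine ⟨n₀ + 1, fun n hn => ?_⟩
  obtain ⟨m, rfl⟩ : ∃ m, n = m + 1 := ⟨n - 1, by omega⟩
  obtain ⟨h4, h5, h6⟩ := hn₀ m (by omega)
  refine (measure_mono ?_).trans h4
  intro a ha
  simp only [Set.mem_ofPred_eq] at ha ⊢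
  by_contra hcon
  push Not at hcon
  rw [Real.norm_eq_abs] at hcon
  have hm0 : (0 : ℝ) < m := by exact_mod_cast h6
  have hlog : 0 < Real.log m := by
    have : 0 < 2 / η := by positivity
    linarith
  have hb1 : |(NR a (m + 1) : ℝ) - 2 / Real.pi * Real.log m| < η / 2 * Real.log m := by
    have : (NR a (m + 1) : ℝ) - 2 / Real.pi * Real.log m =
        ((NR a (m + 1) : ℝ) / Real.log m - 2 / Real.pi) * Real.log m := by
      field_simp
    rw [this, abs_mul, abs_of_pos hlog]
    exact mul_lt_mul_of_pos_right hcon hlog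
  have hl1 : Real.log m ≤ Real.log ((m + 1 : ℕ) : ℝ) := by
    apply Real.log_le_log hm0
    push_cast
    linarith
  have hl2 : Real.log ((m + 1 : ℕ) : ℝ) ≤ Real.log m + 1 := by
    have : Real.log ((m + 1 : ℕ) : ℝ) - Real.log m ≤ 1 := by
      rw [← Real.log_div (by positivity) hm0.ne']
      refine (Real.log_le_sub_one_of_pos (by positivity)).trans ?_
      push_cast
      have : ((m : ℝ) + 1) / m - 1 = 1 / m := by field_simp; ring
      rw [this]
      rw [div_le_one hm0]
      exact_mod_cast h6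
    linarith
  have hc1 : 2 / Real.pi ≤ 1 := by
    rw [div_le_one Real.pi_pos]
    linarith [Real.pi_gt_three]
  have hc0 : 0 ≤ 2 / Real.pi := by positivity
  have hb2 : |(NR a (m + 1) : ℝ) - 2 / Real.pi * Real.log ((m + 1 : ℕ) : ℝ)| ≤
      |(NR a (m + 1) : ℝ) - 2 / Real.pi * Real.log m| + 1 := by
    have e : (NR a (m + 1) : ℝ) - 2 / Real.pi * Real.log ((m + 1 : ℕ) : ℝ) =
        ((NR a (m + 1) : ℝ) - 2 / Real.pi * Real.log m) +
          -(2 / Real.pi * (Real.log ((m + 1 : ℕ) : ℝ) - Real.log m)) := by ring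
    rw [e]
    refine (abs_add_le _ _).trans ?_
    gcongr
    rw [abs_neg, abs_of_nonneg (mul_nonneg hc0 (by linarith))]
    calc 2 / Real.pi * (Real.log ((m + 1 : ℕ) : ℝ) - Real.log m) ≤ 1 * 1 := by
          apply mul_le_mul hc1 (by linarith) (by linarith) zero_le_one
      _ = 1 := one_mul 1
  have hb3 : 1 ≤ η / 2 * Real.log m := by
    have : η / 2 * (2 / η + 1) ≤ η / 2 * Real.log m := by gcongr
    have e : η / 2 * (2 / η + 1) = 1 + η / 2 := by field_simp
    rw [e] at this
    linarith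
  have hb4 : η * Real.log m ≤ η * Real.log ((m + 1 : ℕ) : ℝ) := by gcongr
  linarith

theorem endd (hF : S_FIN) (hA : S_AES) (hM : S_MEAS) (_hR : S_ROOT) : S_END := by
  intro h
  obtain ⟨K, η, q0, hK, hη, hq⟩ := hF (HP_of hA hM h)
  set A : ℕ → Set (ℕ → ℝ) := fun r => {a | ∃ n : ℕ, (2 ^ r) ^ K ≤ n ∧ ∃ k : ℕ,
    Zr (pol a n) Set.univ k ∧ (2 / Real.pi + η) * Real.log n ≤ k} with hAdef
  have hmeas : ∀ r, MeasurableSet (A r) := by
    intro r
    have : A r = ⋃ n : ℕ, ⋃ (_ : (2 ^ r) ^ K ≤ n), ⋃ k : ℕ,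
        ⋃ (_ : (2 / Real.pi + η) * Real.log n ≤ k), {a | Zr (pol a n) Set.univ k} := by
      ext a
      simp only [hAdef, Set.mem_ofPred_eq, Set.mem_iUnion, exists_prop]
      constructor
      · rintro ⟨n, hn, k, h1, h2⟩
        exact ⟨n, hn, k, h2, h1⟩
      · rintro ⟨n, hn, k, h2, h1⟩
        exact ⟨n, hn, k, h1, h2⟩
    rw [this]
    refine MeasurableSet.iUnion fun n => MeasurableSet.iUnion fun _ => MeasurableSet.iUnion
      fun k => MeasurableSet.iUnion fun _ => (hM n).2.1 k
  have hanti : Antitone A := by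
    intro r s hrs a ha
    obtain ⟨n, hn, k, h1, h2⟩ := ha
    refine ⟨n, le_trans ?_ hn, k, h1, h2⟩
    exact Nat.pow_le_pow_left (Nat.pow_le_pow_right (by norm_num) hrs) K
  have hlim := tendsto_measure_iInter_atTop (μ := ga) (fun r => (hmeas r).nullMeasurableSet) hanti
    ⟨0, measure_ne_top _ _⟩
  have hhalf : (2⁻¹ : ENNReal) ≤ ga (⋂ r, A r) := by
    refine ge_of_tendsto hlim ?_
    have : ∀ᶠ r : ℕ in atTop, q0 ≤ 2 ^ r :=
      (tendsto_pow_atTop_atTop_of_one_lt (by norm_num : 1 < 2)).eventually_ge_atTop _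
    filter_upwards [this] with r hr
    exact hq r hr
  have hzero : ga (⋂ r, A r) = 0 := by
    rw [← compl_compl (⋂ r, A r), ← mem_ae_iff]
    have hA' : ∀ᵐ a ∂ga, ∀ n : ℕ, 1 ≤ n → ∀ k, k ≤ NR a n ↔ Zr (pol a n) Set.univ k := by
      rw [ae_all_iff]
      intro n
      by_cases hn : 1 ≤ n
      · filter_upwards [hA n hn] with a ha
        exact fun _ => ha
      · exact Filter.Eventually.of_forall fun a hn' => absurd hn' hn
    filter_upwards [h, hA'] with a ha hb
    intro hmem
    rw [Set.mem_iInter] at hmem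
    have hlt : ∀ᶠ n : ℕ in atTop, (NR a (n + 1) : ℝ) / Real.log n < 2 / Real.pi + η :=
      ha.eventually_lt_const (by linarith)
    obtain ⟨N, hN⟩ := eventually_atTop.1 hlt
    obtain ⟨n, hn, k, h1, h2⟩ := hmem (N + 3)
    have hn' : N + 3 < n := by
      have e1 : 2 ^ (N + 3) ≤ (2 ^ (N + 3)) ^ K := Nat.le_self_pow (by omega) _
      have e2 : N + 3 < 2 ^ (N + 3) := Nat.lt_two_pow_self
      omega
    obtain ⟨m, rfl⟩ : ∃ m, n = m + 1 := ⟨n - 1, by omega⟩
    have h3 := hN m (by omega)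
    have h4 : k ≤ NR a (m + 1) := (hb (m + 1) (by omega) k).2 h1
    have hm3 : (3 : ℝ) ≤ m := by
      have : 3 ≤ m := by omega
      exact_mod_cast this
    have hlog : 0 < Real.log m := Real.log_pos (by linarith)
    rw [div_lt_iff₀ hlog] at h3
    have h5 : (k : ℝ) ≤ NR a (m + 1) := by exact_mod_cast h4
    have h6 : Real.log m ≤ Real.log ((m + 1 : ℕ) : ℝ) := by
      apply Real.log_le_log (by linarith)
      push_cast
      linarith
    have hc0 : 0 < 2 / Real.pi := by positivity
    have h7 : (2 / Real.pi + η) * Real.log m ≤ (2 / Real.pi + η) * Real.log ((m + 1 : ℕ) : ℝ) := by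
      gcongr
    linarith
  rw [hzero] at hhalf
  simp at hhalf

theorem frozen (h : S_END) :
    ¬ (∀ (Ω : Type) [MeasureSpace Ω] [IsProbabilityMeasure (volume : Measure Ω)]
      (ξ : ℕ → Ω → ℝ),
      (∀ i, Measurable (ξ i)) →
      iIndepFun ξ (volume : Measure Ω) →
      (∀ i, Measure.map (ξ i) (volume : Measure Ω) = gaussianReal 0 1) →
      ∀ᵐ ω ∂(volume : Measure Ω),
        Tendsto
          (fun n : ℕ =>
            ((∑ i ∈ Finset.range (n + 1),
                Polynomial.C (ξ i ω) * Polynomial.X ^ i).roots.card : ℝ)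
              / Real.log n)
          atTop (𝓝 (2 / Real.pi))) := by
  intro H
  apply h
  let _ : MeasureSpace (ℕ → ℝ) := ⟨ga⟩
  have hv : (volume : Measure (ℕ → ℝ)) = ga := rfl
  have : IsProbabilityMeasure (volume : Measure (ℕ → ℝ)) := by
    rw [hv]; infer_instance
  have h1 := H (ℕ → ℝ) (fun i a => a i) (fun i => measurable_pi_apply i) ?_ ?_
  · exact h1
  · rw [hv, ga]
    exact iIndepFun_infinitePi (P := fun _ : ℕ => gaussianReal 0 1) (X := fun _ x => x)
      (fun _ => measurable_id)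
  · intro i
    rw [hv, ga]
    exact Measure.infinitePi_map_eval (fun _ : ℕ => gaussianReal 0 1) i

end Pool.Agent.W570.KZ
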